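import Pool.Agent.W774.TL.Stm

set_option autoImplicit false

namespace Pool.Agent.W452.TL

open Set Filter Topology Pool.Agent.W774.TL

lemma mv (f f' : ℝ → ℝ) (l r C : ℝ) (hf : ∀ x ∈ Icc l r, HasDerivAt f (f' x) x)
    (hb : ∀ x ∈ Ico l r, |f' x| ≤ C) : ∀ x ∈ Icc l r, |f x - f l| ≤ C * (x - l) := by
  have hc : ContinuousOn f (Icc l r) := fun x hx => (hf x hx).continuousAt.continuousWithinAt
  have hd : ∀ x ∈ Ico l r, HasDerivWithinAt f (f' x) (Ici x) x :=
    fun x hx => (hf x ⟨hx.1, hx.2.le⟩).hasDerivWithinAt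
  intro x hx
  have := norm_image_sub_le_of_norm_deriv_right_le_segment hc hd
    (fun x hx => by simpa using hb x hx) x hx
  simpa using this

lemma Co_abs (u : ℝ) : |Co u| ≤ 1 := Real.abs_cos_le_one _

lemma Co_bd (u : ℝ) : |1 - Co u| ≤ 20 * u ^ 2 := by
  unfold Co
  have h1 := Real.cos_le_one (2 * Real.pi * u)
  have h2 := Real.one_sub_sq_div_two_le_cos (x := 2 * Real.pi * u)
  rw [abs_of_nonneg (by linarith)]
  have hpi : Real.pi ^ 2 ≤ 10 := by
    have := Real.pi_lt_d2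
    have := Real.pi_pos
    nlinarith
  nlinarith [sq_nonneg u, mul_nonneg (sq_nonneg u) (by linarith : 0 ≤ 10 - Real.pi ^ 2)]

lemma S_pos (u : ℝ) (h0 : 0 ≤ u) (h : u ≤ 1 / 100) : |S u - u| ≤ 10 * u ^ 3 := by
  rcases h0.eq_or_lt with h0 | h0
  · subst h0; simp [S]
  · have hpi := Real.pi_pos
    have hpi2 := Real.pi_lt_d2
    have hx : 0 < 2 * Real.pi * u := by positivity
    have h1 := Real.sin_lt hx
    have h2 := Real.sin_gt_sub_cube hx
    have h6 : 0 ≤ (2 * Real.pi * u) ^ 3 := by positivity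
    have e : S u - u = (Real.sin (2 * Real.pi * u) - 2 * Real.pi * u) / (2 * Real.pi) := by
      unfold S; field_simp
    rw [e, abs_div, abs_of_neg (by linarith), abs_of_pos (by positivity : 0 < 2 * Real.pi),
      div_le_iff₀ (by positivity)]
    have hpi3 : Real.pi ^ 2 ≤ 10 := by nlinarith
    have h3 : (2 * Real.pi * u) ^ 3 / 4 = (2 * Real.pi) * (Real.pi ^ 2 * u ^ 3) := by ring
    have h4 : Real.pi ^ 2 * u ^ 3 ≤ 10 * u ^ 3 :=
      mul_le_mul_of_nonneg_right hpi3 (by positivity)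
    have h5 := mul_le_mul_of_nonneg_left h4 (by positivity : (0 : ℝ) ≤ 2 * Real.pi)
    linarith

lemma S_neg (u : ℝ) : S (-u) = - S u := by
  unfold S
  have : 2 * Real.pi * -u = -(2 * Real.pi * u) := by ring
  rw [this, Real.sin_neg, neg_div]

lemma S_bd (u δ : ℝ) (h : |u| ≤ δ) (hδ : δ ≤ 1 / 100) : |S u - u| ≤ 10 * δ ^ 3 := by
  have key : ∀ v : ℝ, 0 ≤ v → v ≤ δ → |S v - v| ≤ 10 * δ ^ 3 := by
    intro v hv hvδ
    refine (S_pos v hv (by linarith)).trans ?_
    have : v ^ 3 ≤ δ ^ 3 := pow_le_pow_left₀ hv hvδ 3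
    linarith
  rcases le_total 0 u with hu | hu
  · exact key u hu (by rwa [abs_of_nonneg hu] at h)
  · have := key (-u) (by linarith) (by rwa [abs_of_nonpos hu] at h)
    rw [S_neg] at this
    rw [← abs_neg]
    convert this using 2
    ring

lemma S_deriv (u : ℝ) : HasDerivAt S (Co u) u := by
  have h1 : HasDerivAt (fun u : ℝ => 2 * Real.pi * u) (2 * Real.pi) u := by
    simpa using (hasDerivAt_id u).const_mul (2 * Real.pi)
  have h2 := (h1.sin).div_const (2 * Real.pi)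
  have e : Real.cos (2 * Real.pi * u) * (2 * Real.pi) / (2 * Real.pi) = Co u := by
    unfold Co
    field_simp
  rw [e] at h2
  exact h2

lemma sg_pos (y : ℝ) : 0 ≤ sg y := by unfold sg; positivity

lemma sg_le (y : ℝ) : sg y ≤ 1 := by
  unfold sg
  have := Real.exp_pos y
  rw [div_le_one (by positivity)]
  linarith

lemma L_neg (y : ℝ) (hy : y ≤ 0) : |Real.log (1 + Real.exp y)| ≤ 1 := by
  have h0 := Real.exp_pos y
  have h1 : Real.exp y ≤ 1 := Real.exp_le_one_iff.2 hy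
  rw [abs_of_nonneg (Real.log_nonneg (by linarith))]
  have := Real.log_le_sub_one_of_pos (by linarith : 0 < 1 + Real.exp y)
  linarith

lemma L_pos (y : ℝ) (hy : 0 ≤ y) : |Real.log (1 + Real.exp y) - y| ≤ 1 := by
  have h := L_neg (-y) (by linarith)
  have e : Real.log (1 + Real.exp y) - y = Real.log (1 + Real.exp (-y)) := by
    have : 1 + Real.exp y = Real.exp y * (1 + Real.exp (-y)) := by
      rw [mul_add, ← Real.exp_add]; simp; ring
    rw [this, Real.log_mul (Real.exp_pos y).ne' (by have := Real.exp_pos (-y); positivity),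
      Real.log_exp]
    ring
  rw [e]; exact h

theorem j2_thm : P_J2 := by
  intro G hG
  refine ⟨10 ^ 7 * (10 + G), ?_⟩
  intro A hA a p a' p' hS a1 Q1 ha1 hp1 hab hQb
  have hA8 : (10 : ℝ) ^ 8 ≤ A := by nlinarith
  have hApos : 0 < A := by linarith
  have hGA : 10 + G ≤ A / 10 ^ 7 := by
    rw [le_div_iff₀ (by positivity)]; linarith
  have hinv : 1 / A ^ 2 ≤ 1 / 10 ^ 7 := by
    apply one_div_le_one_div_of_le (by positivity)
    nlinarith
  have hinv0 : 0 ≤ 1 / A ^ 2 := by positivity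
  have hinvA : A * (1 / A ^ 2) ≤ 1 := by
    have : A * (1 / A ^ 2) = 1 / A := by field_simp
    rw [this, div_le_one hApos]
    linarith
  obtain ⟨hab1, hab2⟩ := abs_le.1 hab
  obtain ⟨hQb1, hQb2⟩ := abs_le.1 hQb
  -- derivative bounds inside R1
  have hdb : ∀ τ ∈ Icc (-1 / 500 : ℝ) (1 / 500), R1 A τ (a τ) (p τ) →
      (|a' τ| ≤ 101 / 100 ∧ |p' τ| ≤ 31 / 10 * A) := by
    intro τ hτ hR
    obtain ⟨-, -, h3⟩ := hS τ hτ
    obtain ⟨h4, h5⟩ := h3 (Or.inl hR)
    have s0 := sg_pos (yy A τ (a τ) (p τ))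
    have s1 := sg_le (yy A τ (a τ) (p τ))
    set s := sg (yy A τ (a τ) (p τ)) with hs
    have c1 := abs_le.1 (Co_abs (a τ))
    have c2 := abs_le.1 (Co_abs (a τ - τ))
    have h4' := abs_le.1 h4
    have h5' := abs_le.1 h5
    refine ⟨abs_le.2 ⟨by linarith, by linarith⟩, ?_⟩
    have b1 : (1 - s) * Co (a τ) + 3 * s * Co (a τ - τ) ≤ 3 := by nlinarith
    have b2 : -3 ≤ (1 - s) * Co (a τ) + 3 * s * Co (a τ - τ) := by nlinarith
    have b3 := mul_le_mul_of_nonneg_left b1 hApos.le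
    have b4 := mul_le_mul_of_nonneg_left b2 hApos.le
    exact abs_le.2 ⟨by linarith, by linarith⟩
  -- one step of the bootstrap
  have step : ∀ τ0 ∈ Icc (-1 / 500 : ℝ) (1 / 500),
      (∀ τ ∈ Ico (-1 / 500 : ℝ) τ0, R1 A τ (a τ) (p τ)) →
      |a τ0| < 1 / 100 ∧ |p τ0 - A * (3 / 2 + τ0)| < A / 50 := by
    intro τ0 hτ0 hall
    have m1 := mv a a' (-1 / 500) τ0 (101 / 100)
      (fun x hx => (hS x ⟨hx.1, hx.2.trans hτ0.2⟩).1)
      (fun x hx => (hdb x ⟨hx.1, hx.2.le.trans hτ0.2⟩ (hall x hx)).1) τ0 ⟨hτ0.1, le_rfl⟩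
    have m2 := mv p p' (-1 / 500) τ0 (31 / 10 * A)
      (fun x hx => (hS x ⟨hx.1, hx.2.trans hτ0.2⟩).2.1)
      (fun x hx => (hdb x ⟨hx.1, hx.2.le.trans hτ0.2⟩ (hall x hx)).2) τ0 ⟨hτ0.1, le_rfl⟩
    rw [ha1] at m1
    rw [hp1] at m2
    obtain ⟨t1, t2⟩ := hτ0
    have m1' := abs_le.1 m1
    have m2' := abs_le.1 m2
    have e1 : 31 / 10 * A * (τ0 - -1 / 500) ≤ 31 / 10 * A * (1 / 250) :=
      mul_le_mul_of_nonneg_left (by linarith) (by positivity)
    have e2 : A * Q1 ≤ A * (51 / 50000) := mul_le_mul_of_nonneg_left hQb2 hApos.le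
    have e3 : A * (-(51 / 50000)) ≤ A * Q1 := mul_le_mul_of_nonneg_left hQb1 hApos.le
    have e4 : A * τ0 ≤ A * (1 / 500) := mul_le_mul_of_nonneg_left t2 hApos.le
    have e5 : A * (-1 / 500) ≤ A * τ0 := mul_le_mul_of_nonneg_left t1 hApos.le
    constructor
    · exact abs_lt.2 ⟨by linarith, by linarith⟩
    · exact abs_lt.2 ⟨by linarith, by linarith⟩
  have hac : ContinuousOn a (Icc (-1 / 500 : ℝ) (1 / 500)) :=
    fun x hx => (hS x hx).1.continuousAt.continuousWithinAt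
  have hpc : ContinuousOn p (Icc (-1 / 500 : ℝ) (1 / 500)) :=
    fun x hx => (hS x hx).2.1.continuousAt.continuousWithinAt
  have boot : ∀ τ ∈ Icc (-1 / 500 : ℝ) (1 / 500),
      |a τ| < 1 / 100 ∧ |p τ - A * (3 / 2 + τ)| < A / 50 := by
    by_contra hcon
    push Not at hcon
    obtain ⟨τ1, hτ1, hbad⟩ := hcon
    set B : Set ℝ := (Icc (-1 / 500 : ℝ) (1 / 500) ∩ (fun τ => |a τ|) ⁻¹' Ici (1 / 100)) ∪
      (Icc (-1 / 500 : ℝ) (1 / 500) ∩ (fun τ => |p τ - A * (3 / 2 + τ)|) ⁻¹' Ici (A / 50)) with hB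
    have hBc : IsClosed B := by
      apply IsClosed.union
      · exact (hac.abs).preimage_isClosed_of_isClosed isClosed_Icc isClosed_Ici
      · apply ContinuousOn.preimage_isClosed_of_isClosed _ isClosed_Icc isClosed_Ici
        exact (hpc.sub (by fun_prop)).abs
    have hBsub : B ⊆ Icc (-1 / 500 : ℝ) (1 / 500) := by
      rintro x (hx | hx) <;> exact hx.1
    have hBk : IsCompact B := isCompact_Icc.of_isClosed_subset hBc hBsub
    have hBne : B.Nonempty := by
      refine ⟨τ1, ?_⟩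
      by_cases hh : |a τ1| < 1 / 100
      · right; exact ⟨hτ1, hbad hh⟩
      · left; exact ⟨hτ1, not_lt.1 hh⟩
    obtain ⟨τ0, hτ0, hmin⟩ := hBk.exists_isLeast hBne
    have hτ0I := hBsub hτ0
    have hall : ∀ τ ∈ Ico (-1 / 500 : ℝ) τ0, R1 A τ (a τ) (p τ) := by
      intro τ hτ
      have hnot : τ ∉ B := fun hh => absurd (hmin hh) (not_le.2 hτ.2)
      have hI : τ ∈ Icc (-1 / 500 : ℝ) (1 / 500) := ⟨hτ.1, hτ.2.le.trans hτ0I.2⟩
      have g1 : |a τ| < 1 / 100 := by
        by_contra hh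
        exact hnot (Or.inl ⟨hI, not_lt.1 hh⟩)
      have g2 : |p τ - A * (3 / 2 + τ)| < A / 50 := by
        by_contra hh
        exact hnot (Or.inr ⟨hI, not_lt.1 hh⟩)
      exact ⟨by linarith [hI.1], by linarith [hI.2], g1.le, g2.le⟩
    obtain ⟨k1, k2⟩ := step τ0 hτ0I hall
    rcases hτ0 with hh | hh
    · exact absurd k1 (not_lt.2 hh.2)
    · exact absurd k2 (not_lt.2 hh.2)
  have hR1 : ∀ τ ∈ Icc (-1 / 500 : ℝ) (1 / 500), R1 A τ (a τ) (p τ) := by
    intro τ hI
    obtain ⟨g1, g2⟩ := boot τ hI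
    exact ⟨by linarith [hI.1], by linarith [hI.2], g1.le, g2.le⟩
  refine ⟨hR1, ?_⟩
  -- refined bounds for a
  have ref : ∀ τ ∈ Icc (-1 / 500 : ℝ) (1 / 500), |a τ| ≤ 51 / 10000 ∧ |a τ - τ| ≤ 31 / 10000 := by
    intro τ hτ
    have m1 := mv (fun τ => a τ - 1 / 2 * τ) (fun τ => a' τ - 1 / 2) (-1 / 500) (1 / 500)
      (1 / 2 + 1 / 10 ^ 7)
      (fun x hx => by
        have := (hS x hx).1.sub ((hasDerivAt_id' x).const_mul (1 / 2 : ℝ))
        rw [mul_one] at this
        exact this)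
      (fun x hx => by
        have hx' : x ∈ Icc (-1 / 500 : ℝ) (1 / 500) := ⟨hx.1, hx.2.le⟩
        have h4 := ((hS x hx').2.2 (Or.inl (hR1 x hx'))).1
        have s0 := sg_pos (yy A x (a x) (p x))
        have s1 := sg_le (yy A x (a x) (p x))
        have h4' := abs_le.1 h4
        exact abs_le.2 ⟨by linarith, by linarith⟩) τ hτ
    simp only [ha1] at m1
    have m1' := abs_le.1 m1
    obtain ⟨t1, t2⟩ := hτ
    constructor
    · exact abs_le.2 ⟨by linarith, by linarith⟩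
    · exact abs_le.2 ⟨by linarith, by linarith⟩
  -- derivative estimates for F1 and F2
  have hF1 := mv (fun τ => p τ - 2 * A * a τ - A * τ) (fun τ => p' τ - 2 * A * a' τ - A)
    (-1 / 500) (1 / 500) (6 / 10 ^ 4 * A)
    (fun x hx => by
      have := ((hS x hx).2.1.sub ((hS x hx).1.const_mul (2 * A))).sub
        ((hasDerivAt_id' x).const_mul A)
      rw [mul_one] at this
      exact this)
    (fun x hx => by
      have hx' : x ∈ Icc (-1 / 500 : ℝ) (1 / 500) := ⟨hx.1, hx.2.le⟩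
      obtain ⟨h4, h5⟩ := ((hS x hx').2.2 (Or.inl (hR1 x hx')))
      obtain ⟨r1, r2⟩ := ref x hx'
      have s0 := sg_pos (yy A x (a x) (p x))
      have s1 := sg_le (yy A x (a x) (p x))
      set s := sg (yy A x (a x) (p x)) with hs
      have c1 : |1 - Co (a x)| ≤ 53 / 10 ^ 5 := by
        refine (Co_bd _).trans ?_
        have : (a x) ^ 2 ≤ (51 / 10000) ^ 2 := by
          rw [← sq_abs]; exact pow_le_pow_left₀ (abs_nonneg _) r1 2
        linarith
      have c2 : |1 - Co (a x - x)| ≤ 193 / 10 ^ 6 := by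
        refine (Co_bd _).trans ?_
        have : (a x - x) ^ 2 ≤ (31 / 10000) ^ 2 := by
          rw [← sq_abs]; exact pow_le_pow_left₀ (abs_nonneg _) r2 2
        linarith
      have c1' := abs_le.1 c1
      have c2' := abs_le.1 c2
      have h4' := abs_le.1 h4
      have h5' := abs_le.1 h5
      have e1 : A * (a' x - s) ≤ 1 := by
        have := mul_le_mul_of_nonneg_left h4'.2 hApos.le
        linarith
      have e2 : -1 ≤ A * (a' x - s) := by
        have := mul_le_mul_of_nonneg_left h4'.1 hApos.le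
        linarith
      have d1 : (1 - s) * Co (a x) + 3 * s * Co (a x - x) - 2 * s - 1 ≤ 58 / 10 ^ 5 := by
        nlinarith
      have d2 : -(58 / 10 ^ 5) ≤ (1 - s) * Co (a x) + 3 * s * Co (a x - x) - 2 * s - 1 := by
        nlinarith
      have d3 := mul_le_mul_of_nonneg_left d1 hApos.le
      have d4 := mul_le_mul_of_nonneg_left d2 hApos.le
      exact abs_le.2 ⟨by linarith, by linarith⟩) (1 / 500) ⟨by norm_num, le_rfl⟩
  have hyd : ∀ x ∈ Icc (-1 / 500 : ℝ) (1 / 500),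
      HasDerivAt (fun τ => yy A τ (a τ) (p τ))
        (p' x - A * (3 * (Co (a x - x) * (a' x - 1)) - Co (a x) * a' x)) x := by
    intro x hx
    have q1 := (hS x hx).1
    have q2 := (hS x hx).2.1
    have q3 : HasDerivAt (fun τ => S (a τ)) (Co (a x) * a' x) x :=
      HasDerivAt.comp x (S_deriv (a x)) q1
    have q4 : HasDerivAt (fun τ => S (a τ - τ)) (Co (a x - x) * (a' x - 1)) x :=
      HasDerivAt.comp (h₂ := S) x (S_deriv (a x - x)) (q1.sub (hasDerivAt_id x))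
    have q5 := q2.sub ((((q4.const_mul 3).const_add (3 / 2)).sub q3).const_mul A)
    exact q5
  have hF2 := mv (fun τ => 4 * A * a τ - Real.log (1 + Real.exp (yy A τ (a τ) (p τ))))
    (fun x => 4 * A * a' x - sg (yy A x (a x) (p x)) *
      (p' x - A * (3 * (Co (a x - x) * (a' x - 1)) - Co (a x) * a' x)))
    (-1 / 500) (1 / 500) (13 / 10 ^ 4 * A)
    (fun x hx => by
      have q1 := (hS x hx).1
      have q6 := ((hyd x hx).exp.const_add 1).log
        (by have := Real.exp_pos (yy A x (a x) (p x)); positivity)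
      have q7 := (q1.const_mul (4 * A)).sub q6
      exact q7.congr_deriv (by simp only [sg]; ring))
    (fun x hx => by
      have hx' : x ∈ Icc (-1 / 500 : ℝ) (1 / 500) := ⟨hx.1, hx.2.le⟩
      obtain ⟨h4, h5⟩ := ((hS x hx').2.2 (Or.inl (hR1 x hx')))
      obtain ⟨r1, r2⟩ := ref x hx'
      have s0 := sg_pos (yy A x (a x) (p x))
      have s1 := sg_le (yy A x (a x) (p x))
      set s := sg (yy A x (a x) (p x)) with hs
      have c1 : |1 - Co (a x)| ≤ 53 / 10 ^ 5 := by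
        refine (Co_bd _).trans ?_
        have : (a x) ^ 2 ≤ (51 / 10000) ^ 2 := by
          rw [← sq_abs]; exact pow_le_pow_left₀ (abs_nonneg _) r1 2
        linarith
      have c2 : |1 - Co (a x - x)| ≤ 193 / 10 ^ 6 := by
        refine (Co_bd _).trans ?_
        have : (a x - x) ^ 2 ≤ (31 / 10000) ^ 2 := by
          rw [← sq_abs]; exact pow_le_pow_left₀ (abs_nonneg _) r2 2
        linarith
      have c1' := abs_le.1 c1
      have c2' := abs_le.1 c2
      have b1 := abs_le.1 (Co_abs (a x))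
      have b2 := abs_le.1 (Co_abs (a x - x))
      have h4' := abs_le.1 h4
      have h5' := abs_le.1 h5
      obtain ⟨ea, hea⟩ : ∃ ea, ea = a' x - s := ⟨_, rfl⟩
      obtain ⟨ep, hep⟩ : ∃ ep, ep = p' x - A * ((1 - s) * Co (a x) + 3 * s * Co (a x - x)) :=
        ⟨_, rfl⟩
      have e1 : A * ea ≤ 1 := by
        rw [hea]
        have := mul_le_mul_of_nonneg_left h4'.2 hApos.le
        linarith
      have e2 : -1 ≤ A * ea := by
        rw [hea]
        have := mul_le_mul_of_nonneg_left h4'.1 hApos.le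
        linarith
      obtain ⟨z, hz⟩ : ∃ z, z = A * ea := ⟨_, rfl⟩
      rw [← hz] at e1 e2
      rw [← hep] at h5'
      have idy : p' x - A * (3 * (Co (a x - x) * (a' x - 1)) - Co (a x) * a' x) - 4 * A
          = A * ((Co (a x) - 1) + 3 * (Co (a x - x) - 1)) + ep
            + z * (Co (a x) - 3 * Co (a x - x)) := by
        rw [hz, hea, hep]; ring
      have w1 : |z * (Co (a x) - 3 * Co (a x - x))| ≤ 4 := by
        rw [abs_mul]
        have : |z| ≤ 1 := abs_le.2 ⟨e2, e1⟩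
        have : |Co (a x) - 3 * Co (a x - x)| ≤ 4 := abs_le.2 ⟨by linarith, by linarith⟩
        calc |z| * |Co (a x) - 3 * Co (a x - x)| ≤ 1 * 4 := by
              apply mul_le_mul <;> first | assumption | positivity | norm_num
          _ = 4 := by norm_num
      have w1' := abs_le.1 w1
      have w2 : (Co (a x) - 1) + 3 * (Co (a x - x) - 1) ≤ 111 / 10 ^ 5 := by linarith
      have w3 : -(111 / 10 ^ 5) ≤ (Co (a x) - 1) + 3 * (Co (a x - x) - 1) := by linarith
      have w4 := mul_le_mul_of_nonneg_left w2 hApos.le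
      have w5 := mul_le_mul_of_nonneg_left w3 hApos.le
      obtain ⟨D, hD⟩ : ∃ D, D = p' x - A * (3 * (Co (a x - x) * (a' x - 1)) - Co (a x) * a' x)
          - 4 * A := ⟨_, rfl⟩
      have hDb : |D| ≤ 12 / 10 ^ 4 * A := by
        rw [hD, idy]
        exact abs_le.2 ⟨by linarith, by linarith⟩
      have idF : 4 * A * a' x - s *
          (p' x - A * (3 * (Co (a x - x) * (a' x - 1)) - Co (a x) * a' x)) = 4 * z - s * D := by
        rw [hz, hea, hD]; ring
      rw [idF]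
      have w6 : |s * D| ≤ 12 / 10 ^ 4 * A := by
        rw [abs_mul, abs_of_nonneg s0]
        calc s * |D| ≤ 1 * |D| := mul_le_mul_of_nonneg_right s1 (abs_nonneg _)
          _ ≤ 12 / 10 ^ 4 * A := by rw [one_mul]; exact hDb
      have w6' := abs_le.1 w6
      exact abs_le.2 ⟨by linarith, by linarith⟩) (1 / 500) ⟨by norm_num, le_rfl⟩
  -- endpoint evaluation
  obtain ⟨rr1, rr2⟩ := ref (1 / 500) ⟨by norm_num, le_rfl⟩
  obtain ⟨ll1, ll2⟩ := ref (-1 / 500) ⟨le_rfl, by norm_num⟩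
  have S1 := S_bd (a (1 / 500)) (51 / 10000) rr1 (by norm_num)
  have S2 := S_bd (a (1 / 500) - 1 / 500) (31 / 10000) rr2 (by norm_num)
  have S3 := S_bd (a (-1 / 500)) (51 / 10000) ll1 (by norm_num)
  have S4 := S_bd (a (-1 / 500) - -1 / 500) (31 / 10000) ll2 (by norm_num)
  obtain ⟨ah, hah⟩ : ∃ ah, ah = a (1 / 500) := ⟨_, rfl⟩
  obtain ⟨ph, hph⟩ : ∃ ph, ph = p (1 / 500) := ⟨_, rfl⟩
  simp only [ha1, hp1, ← hah, ← hph] at hF1 hF2 S1 S2 S3 S4 ⊢
  have S1' := abs_le.1 S1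
  have S2' := abs_le.1 S2
  have S3' := abs_le.1 S3
  have S4' := abs_le.1 S4
  have hF1' := abs_le.1 hF1
  have hF2' := abs_le.1 hF2
  obtain ⟨y1, hy1⟩ : ∃ y1, y1 = yy A (-1 / 500) a1 (A * (3 / 2 - 1 / 500 + Q1)) := ⟨_, rfl⟩
  obtain ⟨y2, hy2⟩ : ∃ y2, y2 = yy A (1 / 500) ah ph := ⟨_, rfl⟩
  rw [← hy1, ← hy2] at hF2'
  have y1e : y1 = A * (3 / 2 - 1 / 500 + Q1 - (3 / 2 + 3 * S (a1 - -1 / 500) - S a1)) := by
    rw [hy1]; unfold yy; ring
  have y2e : y2 = ph - A * (3 / 2 + 3 * S (ah - 1 / 500) - S ah) := by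
    rw [hy2]; unfold yy; ring
  have y1neg : y1 ≤ 0 := by
    rw [y1e]
    have : 3 / 2 - 1 / 500 + Q1 - (3 / 2 + 3 * S (a1 - -1 / 500) - S a1) ≤ 0 := by
      norm_num at S3' S4' ⊢
      linarith
    nlinarith
  have L1 := abs_le.1 (L_neg y1 y1neg)
  have y2a : y2 - (ph - A * (3 / 2 + 2 * ah - 3 / 500)) = A * ((3 * ((ah - 1 / 500) -
      S (ah - 1 / 500))) - (ah - S ah)) := by
    rw [y2e]; ring
  have y2b : (3 * ((ah - 1 / 500) - S (ah - 1 / 500))) - (ah - S ah) ≤ 3 / 10 ^ 6 := by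
    norm_num at S1' S2' ⊢
    linarith
  have y2c : -(3 / 10 ^ 6) ≤ (3 * ((ah - 1 / 500) - S (ah - 1 / 500))) - (ah - S ah) := by
    norm_num at S1' S2' ⊢
    linarith
  have y2d := mul_le_mul_of_nonneg_left y2b hApos.le
  have y2f := mul_le_mul_of_nonneg_left y2c hApos.le
  have eA1 : A * a1 ≤ A * (51 / 50000) := mul_le_mul_of_nonneg_left hab2 hApos.le
  have eA2 : A * (-(51 / 50000)) ≤ A * a1 := mul_le_mul_of_nonneg_left hab1 hApos.le
  have eQ1 : A * Q1 ≤ A * (51 / 50000) := mul_le_mul_of_nonneg_left hQb2 hApos.le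
  have eQ2 : A * (-(51 / 50000)) ≤ A * Q1 := mul_le_mul_of_nonneg_left hQb1 hApos.le
  have y2pos : 0 ≤ y2 := by linarith
  have L2 := abs_le.1 (L_pos y2 y2pos)
  -- a(h)
  have mainA1 : A * (ah - 1 / 500 - (2 * a1 + Q1) / 4) ≤ A * (1 / 10 ^ 5) := by linarith
  have mainA2 : A * (-(1 / 10 ^ 5)) ≤ A * (ah - 1 / 500 - (2 * a1 + Q1) / 4) := by linarith
  have mA1 := le_of_mul_le_mul_left mainA1 hApos
  have mA2 := le_of_mul_le_mul_left mainA2 hApos
  constructor
  · exact abs_le.2 ⟨by linarith, by linarith⟩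
  · exact abs_le.2 ⟨by linarith, by linarith⟩

end Pool.Agent.W452.TL
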